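import Mathlib
import Pool.Agent.Helper85.FC.Defs

/-!
Kleene's theorem: languages of regular expressions are the regular languages.
-/

namespace Pool.Agent.Helper83.FCKleene

open Language
open scoped Computability

section RegExpToRegular

variable {A : Type}

/-- A finite family of languages closed under derivatives consists of regular languages. -/
theorem isRegular_of_closed {L : Language A} (S : Set (Language A)) (hS : S.Finite)
    (hL : L ∈ S) (hc : ∀ X ∈ S, ∀ a, X.leftQuotient [a] ∈ S) : L.IsRegular := by
  apply Language.IsRegular.of_finite_range_leftQuotient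
  refine hS.subset ?_
  rintro _ ⟨x, rfl⟩
  induction x using List.reverseRecOn with
  | nil => simpa using hL
  | append_singleton x a ih =>
    rw [leftQuotient_append]
    exact hc _ ih a

theorem lq_mem_range {L X : Language A} (hX : X ∈ Set.range L.leftQuotient) (a : A) :
    X.leftQuotient [a] ∈ Set.range L.leftQuotient := by
  obtain ⟨x, rfl⟩ := hX
  exact ⟨x ++ [a], leftQuotient_append L x [a]⟩

/-- union of a set of languages -/
def uni (T : Set (Language A)) : Language A := {w | ∃ X ∈ T, w ∈ X}

theorem mem_uni {T : Set (Language A)} {w : List A} : w ∈ uni T ↔ ∃ X ∈ T, w ∈ X := Iff.rfl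

/-- auxiliary derivative of a union -/
def dT (T : Set (Language A)) (a : A) : Set (Language A) := (fun X => X.leftQuotient [a]) '' T

theorem mem_uni_dT {T : Set (Language A)} {w : List A} {a : A} :
    w ∈ uni (dT T a) ↔ a :: w ∈ uni T := by
  constructor
  · rintro ⟨_, ⟨X, hX, rfl⟩, hw⟩
    exact ⟨X, hX, hw⟩
  · rintro ⟨X, hX, hw⟩
    exact ⟨_, ⟨X, hX, rfl⟩, hw⟩

theorem mem_mul_cons {X M : Language A} {a : A} {w : List A} :
    a :: w ∈ X * M ↔ (w ∈ X.leftQuotient [a] * M) ∨ ([] ∈ X ∧ a :: w ∈ M) := by
  constructor
  · rintro ⟨u, hu, v, hv, h⟩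
    cases u with
    | nil => right; exact ⟨hu, by simpa using h ▸ hv⟩
    | cons b u =>
      simp only [List.cons_append, List.cons.injEq] at h
      obtain ⟨rfl, rfl⟩ := h
      left
      exact ⟨u, hu, v, hv, rfl⟩
  · rintro (⟨u, hu, v, hv, rfl⟩ | ⟨h1, h2⟩)
    · exact ⟨a :: u, hu, v, hv, rfl⟩
    · exact ⟨[], h1, a :: w, h2, rfl⟩

theorem isRegular_mul {L M : Language A} (hL : L.IsRegular) (hM : M.IsRegular) :
    (L * M).IsRegular := by
  have fL := hL.finite_range_leftQuotient
  have fM := hM.finite_range_leftQuotient
  let S : Set (Language A) :=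
    (fun p : Language A × Set (Language A) => p.1 * M + uni p.2) ''
      (Set.range L.leftQuotient ×ˢ 𝒫 (Set.range M.leftQuotient))
  refine isRegular_of_closed S ((fL.prod fM.finite_subsets).image _) ?_ ?_
  · refine ⟨(L, ∅), ⟨⟨[], by simp⟩, by simp⟩, ?_⟩
    ext w
    rw [Language.mem_add, mem_uni]
    simp
  · rintro _ ⟨⟨X, T⟩, ⟨hX, hT⟩, rfl⟩ a
    by_cases hn : [] ∈ X
    · refine ⟨(X.leftQuotient [a], dT T a ∪ {M.leftQuotient [a]}), ⟨lq_mem_range hX a, ?_⟩, ?_⟩
      · rintro Y (⟨Z, hZ, rfl⟩ | rfl)
        · exact lq_mem_range (hT hZ) a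
        · exact ⟨[a], rfl⟩
      · ext w
        simp only [Language.mem_add, Language.mem_leftQuotient, List.singleton_append]
        rw [mem_mul_cons, ← mem_uni_dT (T := T)]
        have : w ∈ uni (dT T a ∪ {M.leftQuotient [a]}) ↔ w ∈ uni (dT T a) ∨ a :: w ∈ M := by
          simp only [mem_uni, Set.mem_union, Set.mem_singleton_iff, or_and_right, exists_or,
            exists_eq_left, Language.mem_leftQuotient, List.singleton_append]
        rw [this]
        tauto
    · refine ⟨(X.leftQuotient [a], dT T a), ⟨lq_mem_range hX a, ?_⟩, ?_⟩
      · rintro Y ⟨Z, hZ, rfl⟩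
        exact lq_mem_range (hT hZ) a
      · ext w
        simp only [Language.mem_add, Language.mem_leftQuotient, List.singleton_append]
        rw [mem_mul_cons, ← mem_uni_dT (T := T)]
        tauto

theorem mem_kstar_cons {L : Language A} {a : A} {w : List A} :
    a :: w ∈ L∗ ↔ w ∈ L.leftQuotient [a] * L∗ := by
  constructor
  · intro h
    rw [Language.mem_kstar_iff_exists_nonempty] at h
    obtain ⟨l, hl, hm⟩ := h
    cases l with
    | nil => simp at hl
    | cons u l =>
      obtain ⟨hu, hu'⟩ := hm u (by simp)
      cases u with
      | nil => exact absurd rfl hu'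
      | cons b u =>
        simp only [List.flatten_cons, List.cons_append, List.cons.injEq] at hl
        obtain ⟨rfl, rfl⟩ := hl
        refine ⟨u, hu, l.flatten, Language.join_mem_kstar ?_, rfl⟩
        intro y hy
        exact (hm y (by simp [hy])).1
  · rintro ⟨u, hu, v, hv, rfl⟩
    obtain ⟨l, rfl, hm⟩ := Language.mem_kstar.1 hv
    refine Language.mem_kstar.2 ⟨(a :: u) :: l, by simp, ?_⟩
    intro y hy
    rcases List.mem_cons.1 hy with rfl | hy
    · exact hu
    · exact hm y hy

theorem isRegular_kstar {L : Language A} (hL : L.IsRegular) : (L∗).IsRegular := by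
  have fL := hL.finite_range_leftQuotient
  let S : Set (Language A) :=
    insert L∗ ((fun T : Set (Language A) => uni T * L∗) '' 𝒫 (Set.range L.leftQuotient))
  refine isRegular_of_closed S ((fL.finite_subsets.image _).insert _) (Or.inl rfl) ?_
  rintro X (rfl | ⟨T, hT, rfl⟩) a
  · right
    refine ⟨{L.leftQuotient [a]}, ?_, ?_⟩
    · rintro _ rfl
      exact ⟨[a], rfl⟩
    · have : uni {L.leftQuotient [a]} = L.leftQuotient [a] := by
        ext w
        simp [mem_uni]
      show uni {L.leftQuotient [a]} * L∗ = _
      rw [this]
      ext w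
      simp only [Language.mem_leftQuotient, List.singleton_append]
      rw [mem_kstar_cons]
  · right
    by_cases hn : [] ∈ uni T
    · refine ⟨dT T a ∪ {L.leftQuotient [a]}, ?_, ?_⟩
      · rintro Y (⟨Z, hZ, rfl⟩ | rfl)
        · exact lq_mem_range (hT hZ) a
        · exact ⟨[a], rfl⟩
      · ext w
        have h1 : uni (dT T a ∪ {L.leftQuotient [a]}) = uni (dT T a) + L.leftQuotient [a] := by
          ext w
          simp only [mem_uni, Set.mem_union, Set.mem_singleton_iff, or_and_right, exists_or,
            exists_eq_left, Language.mem_add]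
        have h2 : (uni T).leftQuotient [a] = uni (dT T a) := by
          ext w
          rw [mem_uni_dT]
          rfl
        show w ∈ uni (dT T a ∪ {L.leftQuotient [a]}) * L∗ ↔ _
        rw [h1, add_mul, Language.mem_add]
        simp only [Language.mem_leftQuotient, List.singleton_append]
        rw [mem_mul_cons, mem_kstar_cons, h2]
        tauto
    · refine ⟨dT T a, ?_, ?_⟩
      · rintro Y ⟨Z, hZ, rfl⟩
        exact lq_mem_range (hT hZ) a
      · ext w
        have h2 : (uni T).leftQuotient [a] = uni (dT T a) := by
          ext w
          rw [mem_uni_dT]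
          rfl
        show w ∈ uni (dT T a) * L∗ ↔ _
        simp only [Language.mem_leftQuotient, List.singleton_append]
        rw [mem_mul_cons, h2]
        tauto

theorem isRegular_zero : (0 : Language A).IsRegular := by
  refine isRegular_of_closed {0} (Set.finite_singleton _) rfl ?_
  rintro _ rfl a
  rw [Set.mem_singleton_iff]
  ext w
  simp [Language.notMem_zero]

theorem isRegular_one : (1 : Language A).IsRegular := by
  refine isRegular_of_closed {0, 1} (Set.toFinite _) (by simp) ?_
  rintro _ (rfl | rfl) a
  · left
    ext w
    simp [Language.notMem_zero]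
  · left
    ext w
    simp [Language.notMem_zero, Language.mem_one]

theorem isRegular_char (a : A) : ({[a]} : Language A).IsRegular := by
  classical
  refine isRegular_of_closed {0, 1, ({[a]} : Language A)} (Set.toFinite _) (by simp) ?_
  rintro _ (rfl | rfl | rfl) b
  · left
    ext w
    simp [Language.notMem_zero]
  · left
    ext w
    simp [Language.notMem_zero, Language.mem_one]
  · by_cases h : b = a
    · right; left
      subst h
      ext w
      rw [Language.mem_leftQuotient, Language.mem_one]
      show [b] ++ w = [b] ↔ _
      simp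
    · left
      ext w
      rw [Language.mem_leftQuotient]
      constructor
      · intro hw
        have hw' : [b] ++ w = [a] := hw
        simp at hw'
        exact absurd hw'.1 h
      · intro hw
        exact absurd hw (Language.notMem_zero _)

theorem regExp_isRegular (P : RegularExpression A) : P.matches'.IsRegular := by
  induction P with
  | zero => exact isRegular_zero
  | epsilon => exact isRegular_one
  | char a => exact isRegular_char a
  | plus P Q hP hQ => exact hP.add hQ
  | comp P Q hP hQ => exact isRegular_mul hP hQ
  | star P hP => exact isRegular_kstar hP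

end RegExpToRegular

section RegularToRegExp

variable {A : Type}

/-- languages of regular expressions -/
def Rex (L : Language A) : Prop := ∃ P : RegularExpression A, P.matches' = L

theorem Rex.zero : Rex (0 : Language A) := ⟨0, rfl⟩
theorem Rex.one : Rex (1 : Language A) := ⟨1, rfl⟩
theorem Rex.char (a : A) : Rex ({[a]} : Language A) := ⟨.char a, rfl⟩
theorem Rex.add {L M : Language A} (hL : Rex L) (hM : Rex M) : Rex (L + M) := by
  obtain ⟨P, rfl⟩ := hL
  obtain ⟨Q, rfl⟩ := hM
  exact ⟨P + Q, rfl⟩
theorem Rex.mul {L M : Language A} (hL : Rex L) (hM : Rex M) : Rex (L * M) := by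
  obtain ⟨P, rfl⟩ := hL
  obtain ⟨Q, rfl⟩ := hM
  exact ⟨P * Q, rfl⟩
theorem Rex.star {L : Language A} (hL : Rex L) : Rex (L∗) := by
  obtain ⟨P, rfl⟩ := hL
  exact ⟨P.star, rfl⟩

theorem Rex.sum {ι : Type} (s : Finset ι) (f : ι → Language A) (h : ∀ i ∈ s, Rex (f i)) :
    Rex (∑ i ∈ s, f i) := by
  classical
  induction s using Finset.induction_on with
  | empty => simpa using Rex.zero
  | insert a s ha ih =>
    rw [Finset.sum_insert ha]
    exact Rex.add (h a (by simp)) (ih fun i hi => h i (by simp [hi]))

theorem mem_sum {ι : Type} (s : Finset ι) (f : ι → Language A) (w : List A) :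
    w ∈ ∑ i ∈ s, f i ↔ ∃ i ∈ s, w ∈ f i := by
  classical
  induction s using Finset.induction_on with
  | empty => simp [Language.notMem_zero]
  | insert a s ha ih =>
    rw [Finset.sum_insert ha, Language.mem_add, ih]
    simp

variable {σ : Type} (M : DFA A σ)

/-- `w` leads from `p` to `q` with all strictly intermediate states in `T`. -/
def Run (T : Finset σ) : σ → List A → σ → Prop
  | p, [], q => p = q
  | p, a :: w, q => (w = [] ∧ M.step p a = q) ∨ (w ≠ [] ∧ M.step p a ∈ T ∧ Run T (M.step p a) w q)

theorem Run.mono {T T' : Finset σ} (h : T ⊆ T') : ∀ {p : σ} {w : List A} {q : σ},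
    Run M T p w q → Run M T' p w q
  | _, [], _, hr => hr
  | _, _ :: _, _, Or.inl hr => Or.inl hr
  | _, _ :: _, _, Or.inr ⟨h1, h2, h3⟩ => Or.inr ⟨h1, h h2, Run.mono h h3⟩

theorem Run.append {T : Finset σ} {t q : σ} (ht : t ∈ T) {v : List A} (hv : Run M T t v q) :
    ∀ {p : σ} {u : List A}, Run M T p u t → Run M T p (u ++ v) q
  | p, [], h => by
    have h' : p = t := h
    subst h'
    exact hv
  | p, a :: u, Or.inl ⟨h1, h2⟩ => by
    subst h1
    simp only [List.cons_append, List.nil_append]
    by_cases hv' : v = []
    · subst hv'
      have : t = q := hv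
      exact Or.inl ⟨rfl, h2.trans this⟩
    · exact Or.inr ⟨hv', by rw [h2]; exact ht, by rw [h2]; exact hv⟩
  | p, a :: u, Or.inr ⟨h1, h2, h3⟩ => by
    simp only [List.cons_append]
    exact Or.inr ⟨by simp [h1], h2, Run.append ht hv h3⟩

theorem run_iff {T : Finset σ} (hT : ∀ s, s ∈ T) : ∀ {p : σ} {w : List A} {q : σ},
    Run M T p w q ↔ M.evalFrom p w = q
  | p, [], q => by simp [Run]
  | p, a :: w, q => by
    rw [Run, run_iff hT]
    by_cases hw : w = []
    · subst hw
      simp
    · simp [hw, hT]

/-- the language of runs -/
def RL (T : Finset σ) (p q : σ) : Language A := {w | Run M T p w q}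

theorem mem_RL {T : Finset σ} {p q : σ} {w : List A} : w ∈ RL M T p q ↔ Run M T p w q := Iff.rfl

theorem RL_insert [DecidableEq σ] (T : Finset σ) (t p q : σ) :
    RL M (insert t T) p q = RL M T p q + RL M T p t * (RL M T t t)∗ * RL M T t q := by
  ext w
  rw [Language.mem_add]
  constructor
  · intro h
    rw [mem_RL] at h
    induction w generalizing p with
    | nil => left; exact h
    | cons a w ih =>
      rcases h with h | ⟨h1, h2, h3⟩
      · left
        exact Or.inl h
      · specialize ih _ h3
        rcases Finset.mem_insert.1 h2 with h2 | h2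
        · -- the first step leads to t
          right
          rw [h2] at ih
          have ha : [a] ∈ RL M T p t := Or.inl ⟨rfl, h2⟩
          rcases ih with ih | ih
          · rw [mul_assoc]
            refine Language.append_mem_mul (a := [a]) ha ?_
            exact Language.append_mem_mul (a := []) (Language.nil_mem_kstar _) ih
          · rw [mul_assoc]
            refine Language.append_mem_mul (a := [a]) ha ?_
            have : RL M T t t * (RL M T t t)∗ * RL M T t q ≤ (RL M T t t)∗ * RL M T t q := by
              refine mul_le_mul_left ?_ _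
              exact mul_kstar_le_kstar
            exact this ih
        · rcases ih with ih | ih
          · left
            exact Or.inr ⟨h1, h2, ih⟩
          · right
            rw [mul_assoc] at ih ⊢
            obtain ⟨x, hx, y, hy, hxy⟩ := ih
            have hax : a :: x ∈ RL M T p t := by
              by_cases hx' : x = []
              · subst hx'
                exact Or.inl ⟨rfl, hx⟩
              · exact Or.inr ⟨hx', h2, hx⟩
            refine ⟨a :: x, hax, y, hy, ?_⟩
            simpa using hxy
  · have hsub : T ⊆ insert t T := Finset.subset_insert _ _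
    have ht : t ∈ insert t T := Finset.mem_insert_self _ _
    rintro (h | h)
    · exact Run.mono M hsub h
    · obtain ⟨xy, ⟨x, hx, y, hy, rfl⟩, z, hz, rfl⟩ := h
      have hx' : Run M (insert t T) p x t := Run.mono M hsub hx
      have hz' : Run M (insert t T) t z q := Run.mono M hsub hz
      have hy' : Run M (insert t T) t (y ++ z) q := by
        obtain ⟨l, rfl, hl⟩ := Language.mem_kstar.1 hy
        clear hy
        induction l with
        | nil => simpa using hz'
        | cons u l ihl =>
          have := ihl (fun v hv => hl v (by simp [hv]))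
          simp only [List.flatten_cons, List.append_assoc]
          exact Run.append M ht this (Run.mono M hsub (hl u (by simp)))
      simp only [List.append_assoc]
      exact Run.append M ht hy' hx'

theorem RL_empty [Fintype A] [DecidableEq σ] (p q : σ) :
    RL M ∅ p q = (if p = q then 1 else 0) +
      ∑ a ∈ Finset.univ.filter (fun a : A => M.step p a = q), ({[a]} : Language A) := by
  ext w
  rw [Language.mem_add, mem_sum, mem_RL]
  cases w with
  | nil =>
    constructor
    · intro h
      have h' : p = q := h
      left
      rw [if_pos h']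
      exact Language.nil_mem_one
    · rintro (h | ⟨a, ha, h⟩)
      · by_cases hpq : p = q
        · exact hpq
        · rw [if_neg hpq] at h
          exact absurd h (Language.notMem_zero _)
      · have : ([] : List A) = [a] := h
        simp at this
  | cons a w =>
    constructor
    · rintro (⟨rfl, h⟩ | ⟨-, h, -⟩)
      · right
        exact ⟨a, by simpa using h, rfl⟩
      · simp at h
    · rintro (h | ⟨b, hb, h⟩)
      · by_cases hpq : p = q
        · rw [if_pos hpq, Language.mem_one] at h
          simp at h
        · rw [if_neg hpq] at h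
          exact absurd h (Language.notMem_zero _)
      · have h' : a :: w = [b] := h
        simp only [List.cons.injEq] at h'
        obtain ⟨rfl, rfl⟩ := h'
        left
        exact ⟨rfl, by simpa using hb⟩

theorem RL_rex [Fintype A] [DecidableEq σ] (T : Finset σ) (p q : σ) : Rex (RL M T p q) := by
  induction T using Finset.induction_on generalizing p q with
  | empty =>
    rw [RL_empty]
    refine Rex.add ?_ (Rex.sum _ _ fun a _ => Rex.char a)
    split_ifs
    · exact Rex.one
    · exact Rex.zero
  | insert t T ht ih =>
    rw [RL_insert]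
    exact (ih p q).add (((ih p t).mul (ih t t).star).mul (ih t q))

theorem regular_rex [Fintype A] (L : Language A) (hL : L.IsRegular) : Rex L := by
  classical
  obtain ⟨σ, _, M, rfl⟩ := hL
  have : M.accepts = ∑ q ∈ Finset.univ.filter (fun q : σ => q ∈ M.accept),
      RL M Finset.univ M.start q := by
    ext w
    rw [mem_sum, DFA.mem_accepts]
    constructor
    · intro h
      refine ⟨M.eval w, by simpa using h, ?_⟩
      rw [mem_RL, run_iff M (fun s => Finset.mem_univ s)]
      rfl
    · rintro ⟨q, hq, h⟩
      rw [mem_RL, run_iff M (fun s => Finset.mem_univ s)] at h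
      have : M.eval w = q := h
      rw [this]
      simpa using hq
  rw [this]
  exact Rex.sum _ _ fun q _ => RL_rex M _ _ _

end RegularToRegExp

theorem kleene : Pool.Agent.Helper85.FC.KleeneStatement :=
  ⟨fun _ P => regExp_isRegular P, fun _ _ L hL => regular_rex L hL⟩

end Pool.Agent.Helper83.FCKleene
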